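import Mathlib
import Pool.Agent.Work.MP_e64a38_co.CZ.FMain

/-!
# The zone of a conic in an arrangement of lines has linear complexity

The inside of a conic (an ellipse, a parabola, or one branch of a hyperbola) is cut by `n` lines into
cells. The cells whose boundary contains an arc of the conic have together at most `100 n` straight
edges. In particular this holds for the unit disc (`disc`).
-/

set_option autoImplicit false

namespace Pool.Agent.Results.MP_e64a38_co.ConicZone

/-- An affine form `a x + b y + c` on the plane. -/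
structure Form where
  a : ℝ
  b : ℝ
  c : ℝ

/-- The value of an affine form at a point. -/
def Form.val (g : Form) (p : ℝ × ℝ) : ℝ := g.a * p.1 + g.b * p.2 + g.c

/-- A conic is given by three linearly independent affine forms `f1`, `f2`, `f3`. -/
structure Conic where
  f1 : Form
  f2 : Form
  f3 : Form
  indep : f1.a * (f2.b * f3.c - f2.c * f3.b) - f1.b * (f2.a * f3.c - f2.c * f3.a)
    + f1.c * (f2.a * f3.b - f2.b * f3.a) ≠ 0

/-- The inside of the conic: `f1² + f2² < f3²` and `0 < f3`. -/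
def Conic.inside (C : Conic) : Set (ℝ × ℝ) :=
  {p | 0 < C.f3.val p ∧ C.f1.val p ^ 2 + C.f2.val p ^ 2 < C.f3.val p ^ 2}

/-- The curve: `f1² + f2² = f3²` and `0 < f3`. -/
def Conic.curve (C : Conic) : Set (ℝ × ℝ) :=
  {p | 0 < C.f3.val p ∧ C.f1.val p ^ 2 + C.f2.val p ^ 2 = C.f3.val p ^ 2}

/-- A straight line. -/
def IsLine (l : Set (ℝ × ℝ)) : Prop := ∃ g : Form, (g.a ≠ 0 ∨ g.b ≠ 0) ∧ l = {p | g.val p = 0}

/-- `K` is one of the cells into which the lines of `L` cut the inside of the conic. -/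
def IsCell (C : Conic) (L : Finset (Set (ℝ × ℝ))) (K : Set (ℝ × ℝ)) : Prop :=
  ∃ p ∈ C.inside \ ⋃ l ∈ L, l, K = connectedComponentIn (C.inside \ ⋃ l ∈ L, l) p

/-- `K` is a cell of the inner zone: infinitely many points of the curve lie in its closure. -/
def IsZoneCell (C : Conic) (L : Finset (Set (ℝ × ℝ))) (K : Set (ℝ × ℝ)) : Prop :=
  IsCell C L K ∧ (closure K ∩ C.curve).Infinite

/-- The straight edges of the cells of the inner zone: the pairs of such a cell `K` and a line `l` of
`L` of which more than one point lies in the closure of `K`. -/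
def zoneEdges (C : Conic) (L : Finset (Set (ℝ × ℝ))) : Set (Set (ℝ × ℝ) × Set (ℝ × ℝ)) :=
  {t | IsZoneCell C L t.1 ∧ t.2 ∈ L ∧ (closure t.1 ∩ t.2).Nontrivial}

/-- The unit circle as an example. -/
def disc : Conic where
  f1 := ⟨1, 0, 0⟩
  f2 := ⟨0, 1, 0⟩
  f3 := ⟨0, 0, 1⟩
  indep := by norm_num

theorem disc_inside : disc.inside = {p | p.1 ^ 2 + p.2 ^ 2 < 1} := by
  ext p
  simp [Conic.inside, disc, Form.val]

theorem disc_curve : disc.curve = {p | p.1 ^ 2 + p.2 ^ 2 = 1} := by
  ext p
  simp [Conic.curve, disc, Form.val]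

/-- The inner zone of a conic in an arrangement of `n` lines has at most `100 n` straight edges. -/
theorem result (C : Conic) (L : Finset (Set (ℝ × ℝ))) (hL : ∀ l ∈ L, IsLine l) :
    (zoneEdges C L).encard ≤ 100 * L.card := by
  let D : Work.MP_e64a38_co.CZ.Con :=
    { f1 := ⟨C.f1.a, C.f1.b, C.f1.c⟩
      f2 := ⟨C.f2.a, C.f2.b, C.f2.c⟩
      f3 := ⟨C.f3.a, C.f3.b, C.f3.c⟩
      det := C.indep }
  have h : ∀ l ∈ L, Work.MP_e64a38_co.CZ.IsLn l := by
    intro l hl
    obtain ⟨g, hg, rfl⟩ := hL l hl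
    exact ⟨⟨g.a, g.b, g.c⟩, hg, rfl⟩
  exact Work.MP_e64a38_co.CZ.zone_conic D L h

end Pool.Agent.Results.MP_e64a38_co.ConicZone
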