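import Pool.Agent.Work.MP_e64a38_co.IZ.Fin

/-!
# MP_e64a38_co: linear inner zone complexity for large classes of line arrangements
-/

namespace Pool.Agent.Results.MP_e64a38_co.LinearZone

open Pool.Agent.Work.MP_e64a38_co

/-- Let P be a convex polygon with k sides, l a family of n different lines that meet the interior of P, and Q a finite
set of boundary points of P. If no r + 1 of the lines that are not balanced for (Q, C) cross pairwise in the interior of
P, then the inner zone has complexity at most (30 + 4 * 6 ^ r) (C + 1) (n + k). -/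
theorem result (r C n k : ℕ) (l : Fin n → Ln) (h : Fin k → Ln) (hP : IsPolygon h)
    (hl : Function.Injective (fun i => (l i).pts)) (hm : ∀ i, ((l i).pts ∩ inn h).Nonempty)
    (Q : Finset (ℝ × ℝ)) (hQ : ∀ q ∈ Q, q ∈ bd h)
    (hT : ∀ T : Finset (Fin n), (∀ i ∈ T, ¬ Balanced l Q C i) →
      (∀ i ∈ T, ∀ j ∈ T, i ≠ j → CrossIn l h i j) → T.card ≤ r) :
    zoneComplexity l h ≤ (30 + 4 * 6 ^ r) * (C + 1) * (n + k) :=
  IZ.zone_bound r C l h hP hl hm Q hQ hT

end Pool.Agent.Results.MP_e64a38_co.LinearZone
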