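import Mathlib
import Pool.Agent.Work.MP_e64a38_co.Env.Cnt
import Pool.Agent.Work.MP_e64a38_co.Env.Brg

/-!
# Lower envelopes of chords of a convex curve with quasisymmetric slope are linear

The points of the curve `y = φ x` over an interval `I` are joined by `n` chords. Over each point `x` one
meets, going up from the curve, first a lowest chord. The sequence of the lowest chords for `x` going
from left to right is the sequence of the edges of the cells of the zone of the curve which are visible
from the curve in vertical direction. We show that it has at most `C (K) * n` terms if the slope of the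
curve is `K`-quasisymmetric. For the parabola `K = 1`; if `m ≤ φ'' ≤ M` then `K = M / m`.
-/

set_option autoImplicit false

namespace Pool.Agent.Results.MP_e64a38_co.LowerEnvelope

/-- The value at `x` of the line through the points of the curve `y = φ x` over `a` and `b`. -/
noncomputable def chord (φ : ℝ → ℝ) (a b x : ℝ) : ℝ := φ a + (x - a) * ((φ b - φ a) / (b - a))

/-- `I` is an interval, `φ` is convex on `I` with supporting lines of slope `ψ u` at `u`, and the slope
`ψ` is strictly increasing and `K`-quasisymmetric: the amounts by which `ψ` grows on two adjacent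
intervals of equal length have a ratio at most `K`. -/
structure Quasi (K : ℝ) (I : Set ℝ) (φ ψ : ℝ → ℝ) : Prop where
  conn : I.OrdConnected
  supp : ∀ u ∈ I, ∀ v ∈ I, φ u + ψ u * (v - u) ≤ φ v
  mono : StrictMonoOn ψ I
  right : ∀ x r, 0 < r → x - r ∈ I → x + r ∈ I → ψ (x + r) - ψ x ≤ K * (ψ x - ψ (x - r))
  left : ∀ x r, 0 < r → x - r ∈ I → x + r ∈ I → ψ x - ψ (x - r) ≤ K * (ψ (x + r) - ψ x)

/-- The chord number `i` (from the point of the curve over `a i` to the one over `b i`) lies over the
point `x`, and is strictly below all the other chords which lie over `x`. -/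
def Lowest {ι : Type} (φ : ℝ → ℝ) (a b : ι → ℝ) (x : ℝ) (i : ι) : Prop :=
  a i < x ∧ x < b i ∧
    ∀ j, j ≠ i → a j < x → x < b j → chord φ (a i) (b i) x < chord φ (a j) (b j) x

/-- The parabola is an example, with `K = 1`. -/
theorem parabola : Quasi 1 Set.univ (fun x => x ^ 2) (fun x => 2 * x) where
  conn := Set.ordConnected_univ
  supp u _ v _ := by nlinarith [sq_nonneg (v - u)]
  mono u _ v _ h := by simpa using h
  right x r _ _ _ := by
    have : 2 * (x + r) - 2 * x = 1 * (2 * x - 2 * (x - r)) := by ring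
    exact this.le
  left x r _ _ _ := by
    have : 2 * x - 2 * (x - r) = 1 * (2 * (x + r) - 2 * x) := by ring
    exact this.le

/-- For every `K` there is a constant `C` such that for every curve with `K`-quasisymmetric slope and
every finite family of chords of it the sequence of the lowest chords has at most `C` times as many
changes as there are chords. -/
theorem result (K : ℝ) : ∃ C : ℕ, ∀ (I : Set ℝ) (φ ψ : ℝ → ℝ), Quasi K I φ ψ →
    ∀ (ι : Type) [Fintype ι] (a b : ι → ℝ), (∀ i, a i ∈ I ∧ b i ∈ I ∧ a i < b i) →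
    ∀ (m : ℕ) (x : ℕ → ℝ) (c : ℕ → ι), (∀ k < m, x k < x (k + 1)) →
      (∀ k ≤ m, Lowest φ a b (x k) (c k)) → (∀ k < m, c k ≠ c (k + 1)) →
      m ≤ C * Fintype.card ι := by
  obtain ⟨N, hN0⟩ : ∃ N : ℕ, 8 * (1 + max K 1) ^ 2 ≤ (1 + 1 / max K 1) ^ N := by
    have h1 : (1 : ℝ) < 1 + 1 / max K 1 := by
      have : (0 : ℝ) < 1 / max K 1 := by positivity
      linarith
    obtain ⟨N, hN⟩ := pow_unbounded_of_one_lt (8 * (1 + max K 1) ^ 2) h1
    exact ⟨N, hN.le⟩
  have hN : 8 * (1 + max K 1) ^ 2 ≤ (1 + 1 / max K 1) ^ (N + 1) := by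
    refine hN0.trans (pow_le_pow_right₀ ?_ (Nat.le_succ N))
    have : (0 : ℝ) < 1 / max K 1 := by positivity
    linarith
  have hε : (0 : ℝ) < (1 / 2) ^ (N + 1) := by positivity
  have hε2 : 2 * (1 / 2 : ℝ) ^ (N + 1) ≤ 1 := by
    rw [pow_succ]
    have : (1 / 2 : ℝ) ^ N ≤ 1 := pow_le_one₀ (by norm_num) (by norm_num)
    linarith
  obtain ⟨C, hC⟩ := Work.MP_e64a38_co.Env.abstract_bound hε hε2
  refine ⟨C, ?_⟩
  intro I φ ψ hq ι _ a b hab m x c hx hl hc
  have hq0 : Work.MP_e64a38_co.Env.QS K I φ ψ := ⟨hq.conn, hq.supp, hq.mono, hq.right, hq.left⟩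
  have hq1 : Work.MP_e64a38_co.Env.QS (max K 1) I φ ψ :=
    Work.MP_e64a38_co.Env.qs_mono_K (le_max_left K 1) hq0
  refine hC (Work.MP_e64a38_co.Env.sysOf hq1 a b hab)
    (Work.MP_e64a38_co.Env.str_sysOf (le_max_right K 1) hN hq1 a b hab)
    (Work.MP_e64a38_co.Env.str_mir (le_max_right K 1) hN hq1 a b hab) m x c ⟨hx, ?_, hc⟩
  intro k hk
  obtain ⟨h1, h2, h3⟩ := hl k hk
  refine ⟨h1, h2, ?_⟩
  intro j hj h4 h5
  rw [Work.MP_e64a38_co.Env.sysOf_v, Work.MP_e64a38_co.Env.sysOf_v]
  exact h3 j hj h4 h5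

end Pool.Agent.Results.MP_e64a38_co.LowerEnvelope
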