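import Pool.Agent.Work.MP_e64a38_co.FF.PMain
import Pool.Agent.Work.MP_e64a38_co.FF.WBox
import Pool.Agent.Work.MP_e64a38_co.FF.PMiss
import Pool.Agent.Work.MP_e64a38_co.FF.CMain
import Pool.Agent.Work.MP_e64a38_co.FF.QMain

/-!
# The inner zone of a convex polygon without separated flattening has linear complexity

`Ln`, `poly`, `inn`, `side`, `IsPolygon`, `Zone`, `edges`, `zoneComplexity` (lines, convex polygons, the cells of
the inner zone and the number of their edges) are defined in `Pool/Agent/Work/MP_e64a38_co/IZ/SDefs.lean`.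
-/

set_option autoImplicit false

namespace Pool.Agent.Results.MP_e64a38_co.PolygonZone

open Pool.Agent.Work.MP_e64a38_co

/-! ## Conics -/

/-- An affine form `a x + b y + c` on the plane. -/
structure Form where
  a : ℝ
  b : ℝ
  c : ℝ

/-- The value of an affine form at a point. -/
def Form.val (g : Form) (p : ℝ × ℝ) : ℝ := g.a * p.1 + g.b * p.2 + g.c

/-- A conic is given by three linearly independent affine forms `f1`, `f2`, `f3`. -/
structure Conic where
  f1 : Form
  f2 : Form
  f3 : Form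
  indep : f1.a * (f2.b * f3.c - f2.c * f3.b) - f1.b * (f2.a * f3.c - f2.c * f3.a)
    + f1.c * (f2.a * f3.b - f2.b * f3.a) ≠ 0

/-- The inside of the conic: `f1² + f2² < f3²` and `0 < f3`. -/
def Conic.inside (C : Conic) : Set (ℝ × ℝ) :=
  {p | 0 < C.f3.val p ∧ C.f1.val p ^ 2 + C.f2.val p ^ 2 < C.f3.val p ^ 2}

/-- The curve: `f1² + f2² = f3²` and `0 < f3`. -/
def Conic.curve (C : Conic) : Set (ℝ × ℝ) :=
  {p | 0 < C.f3.val p ∧ C.f1.val p ^ 2 + C.f2.val p ^ 2 = C.f3.val p ^ 2}

variable {n k : ℕ}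

/-- The polygon is inscribed: every vertex (a point on two different sides) is on the curve. -/
def InscribedIn (C : Conic) (h : Fin k → Ln) : Prop :=
  ∀ i j, i ≠ j → side h i ∩ side h j ⊆ C.curve

/-- The polygon is circumscribed: it contains the inside of the conic and every side touches the curve. -/
def CircumscribedAbout (C : Conic) (h : Fin k → Ln) : Prop :=
  C.inside ⊆ inn h ∧ ∀ j, (side h j ∩ C.curve).Nonempty

/-! ## The chart at a supporting line -/

/-- `g` is a supporting line of the polygon at its point `o`: either it meets the polygon only in `o`, or it contains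
a side of which `o` is an inner point. -/
def Support (h : Fin k → Ln) (g : Ln) (o : ℝ × ℝ) : Prop :=
  g.ev o = 0 ∧ o ∈ poly h ∧ (∀ p ∈ inn h, g.ev p < 0) ∧
    ((∀ p ∈ poly h, p ≠ o → g.ev p < 0) ∨
      ∃ j, ((h j).ev o = 0 ∧ ∀ i, i ≠ j → (h i).ev o < 0) ∧ g.pts = (h j).pts)

/-- The distance of `p` from the line `g`, up to a constant factor. -/
def depth (g : Ln) (p : ℝ × ℝ) : ℝ := - g.ev p

/-- The coordinate of `p` in the direction of the line `g`, with origin `o`, up to the same factor. -/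
def along (g : Ln) (o p : ℝ × ℝ) : ℝ := g.b * (p.1 - o.1) - g.a * (p.2 - o.2)

/-- In the coordinates `X = along / depth`, `Y = 1 / depth` (the projective map that sends `g` to infinity and `o` to
the vertical direction) a line `l` that does not contain `o` is the graph of an affine function of `X`; this
is its slope. -/
noncomputable def slope (g : Ln) (o : ℝ × ℝ) (l : Ln) : ℝ :=
  - ((l.a * g.b - l.b * g.a) / (g.a ^ 2 + g.b ^ 2)) / l.ev o

/-- The meaning of `slope`. -/
theorem slope_spec (g l : Ln) (o : ℝ × ℝ) (ho : g.ev o = 0) (hl : l.ev o ≠ 0) :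
    ∃ c : ℝ, ∀ p, 0 < depth g p →
      (l.ev p = 0 ↔ 1 / depth g p = slope g o l * (along g o p / depth g p) + c) := by
  refine ⟨IZ.ct g o l, fun p hp => ?_⟩
  have h1 := IZ.coord_model g l o p ho hl hp
  have h2 : IZ.yv g p * l.ev o ≠ 0 := mul_ne_zero (ne_of_gt hp) hl
  constructor
  · intro h3
    rw [h1] at h3
    have h4 := (mul_eq_zero.1 h3).resolve_left h2
    exact sub_eq_zero.1 h4
  · intro h3
    rw [h1]
    have h4 : 1 / IZ.yv g p - (IZ.sl g o l * (IZ.uv g o p / IZ.yv g p) + IZ.ct g o l) = 0 :=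
      sub_eq_zero.2 h3
    rw [h4, mul_zero]

/-- The ray from `o` with abscissa `x` (the points with `along = x * depth > x * 0`) meets the side `j` outside
of `o`. -/
def Hit (h : Fin k → Ln) (g : Ln) (o : ℝ × ℝ) (x : ℝ) (j : Fin k) : Prop :=
  ∃ p ∈ side h j, 0 < depth g p ∧ along g o p = x * depth g p

/-- Four adjacent intervals of abscissas `(x0, x1), ..., (x3, x4)`, from left to right if `ε = 1` and from right to
left if `ε = -1`, with no point of `Z` between `x0` and `x4`; each is at least `N` times as long as the one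
before. -/
def Growing (N : ℝ) (Z : Finset ℝ) (ε x0 x1 x2 x3 x4 : ℝ) : Prop :=
  ε * x0 < ε * x1 ∧ ε * x1 < ε * x2 ∧ ε * x2 < ε * x3 ∧ ε * x3 < ε * x4 ∧
    (∀ z ∈ Z, ε * z ≤ ε * x0 ∨ ε * x4 ≤ ε * z) ∧
    N * (ε * (x1 - x0)) ≤ ε * (x2 - x1) ∧ N * (ε * (x2 - x1)) ≤ ε * (x3 - x2) ∧
    N * (ε * (x3 - x2)) ≤ ε * (x4 - x3)

/-- Separated flattening of the polygon in the chart of `g`, `o`: four adjacent intervals of abscissas as in `Growing`,
sides `j1, ..., j4` over `x1, ..., x4` such that the turning (the change of the slope of the side) over each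
interval is at most `1 / N` of the turning over the one before, and the last turning is positive. For the first
interval either there is also a side `j0` over `x0`, or `x0` is an abscissa that misses the polygon (`x0` is
beyond the vertical side) and nothing is required. -/
def Flattening (h : Fin k → Ln) (g : Ln) (o : ℝ × ℝ) (N : ℝ) (Z : Finset ℝ) : Prop :=
  ∃ ε : ℝ, (ε = 1 ∨ ε = -1) ∧ ∃ (x0 x1 x2 x3 x4 : ℝ) (j1 j2 j3 j4 : Fin k),
    Growing N Z ε x0 x1 x2 x3 x4 ∧
    ((h j1).ev o ≠ 0 ∧ Hit h g o x1 j1) ∧ ((h j2).ev o ≠ 0 ∧ Hit h g o x2 j2) ∧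
    ((h j3).ev o ≠ 0 ∧ Hit h g o x3 j3) ∧ ((h j4).ev o ≠ 0 ∧ Hit h g o x4 j4) ∧
    0 < ε * (slope g o (h j4) - slope g o (h j3)) ∧
    N * (ε * (slope g o (h j4) - slope g o (h j3))) ≤ ε * (slope g o (h j3) - slope g o (h j2)) ∧
    N * (ε * (slope g o (h j3) - slope g o (h j2))) ≤ ε * (slope g o (h j2) - slope g o (h j1)) ∧
    ((∃ j0, (h j0).ev o ≠ 0 ∧ Hit h g o x0 j0 ∧
        N * (ε * (slope g o (h j2) - slope g o (h j1))) ≤ ε * (slope g o (h j1) - slope g o (h j0))) ∨
      ¬ ∃ j, Hit h g o x0 j)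

/-- The second divided difference of `f`. -/
noncomputable def dd (f : ℝ → ℝ) (x y z : ℝ) : ℝ :=
  ((f z - f y) / (z - y) - (f y - f x) / (y - x)) / (z - x)

/-! ## The result -/

/-- The vertices other than `o` are on a curve of bounded curvature in the chart of `g`, `o`: `g` meets the
polygon only in its vertex `o`, and in the coordinates `along / depth`, `1 / depth` all the other vertices are on the
graph of a function `f` whose second divided differences are between `c > 0` and `Λ c`, `4 Λ ≤ N`. -/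
def RoundVertices (h : Fin k → Ln) (g : Ln) (o : ℝ × ℝ) (N : ℝ) : Prop :=
  (∀ p ∈ poly h, p ≠ o → 0 < depth g p) ∧ ∃ (f : ℝ → ℝ) (c Λ : ℝ), 0 < c ∧ 4 * Λ ≤ N ∧
    (∀ x y z, x < y → y < z → c ≤ dd f x y z ∧ dd f x y z ≤ Λ * c) ∧
    ∀ i j, i ≠ j → ∀ p ∈ side h i ∩ side h j, p ≠ o → 1 / depth g p = f (along g o p / depth g p)

/-- The class of polygons of the theorem. For some supporting line `g` at some point `o` the polygon has no
separated flattening with the factor `N` and the cut points `Z`; or its vertices are on a curve of bounded curvature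
in the chart; or it is inscribed in a conic, or circumscribed about a conic. -/
def Tame (h : Fin k → Ln) (N : ℕ) (Z : Finset ℝ) : Prop :=
  (∃ (g : Ln) (o : ℝ × ℝ), Support h g o ∧ (¬ Flattening h g o N Z ∨ RoundVertices h g o N)) ∨
    ∃ C : Conic, InscribedIn C h ∨ CircumscribedAbout C h

private theorem not_pfl {h : Fin k → Ln} {g : Ln} {o : ℝ × ℝ} {N : ℝ} {Z : Finset ℝ}
    (hF : ¬ Flattening h g o N Z) (ε : ℝ) (hε : ε = 1 ∨ ε = -1) : ¬ FF.PFl ε N Z h g o := by
  rintro ⟨t0, t1, t2, t3, t4, j1, j2, j3, j4, a1, a2, a3, a4, a5, a6, a7, a8, b1, b2, b3, b4, c1, c2, c3, d⟩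
  exact hF ⟨ε, hε, t0, t1, t2, t3, t4, j1, j2, j3, j4, ⟨a1, a2, a3, a4, a5, a6, a7, a8⟩, b1, b2, b3, b4,
    c1, c2, c3, d⟩

/-- Let `h` be a convex polygon with `k` sides in the class `Tame` for the integer `N ≥ 32` and the finite set `Z`,
and `l` a family of `n` different lines. The complexity of the inner zone is at most
`(2100 N + 6 |Z|) (n + k)`. In particular it is at most `67200 (n + k)` if the polygon is inscribed in a conic
or circumscribed about a conic (`N = 32`, `Z` empty). -/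
theorem result (l : Fin n → Ln) (h : Fin k → Ln) (hP : IsPolygon h)
    (hl : Function.Injective (fun i => (l i).pts)) (N : ℕ) (hN : 32 ≤ N) (Z : Finset ℝ)
    (hT : Tame h N Z) : zoneComplexity l h ≤ (2100 * N + 6 * Z.card) * (n + k) := by
  obtain ⟨m, l', hmn, hl', hm', hz⟩ := FF.miss l h hl
  have main : ∀ (g : Ln) (o : ℝ × ℝ), Support h g o → ∀ Z' ⊆ Z,
      ¬ FF.PFl 1 N Z' h g o → ¬ FF.PFl (-1) N Z' h g o →
      zoneComplexity l h ≤ (2100 * N + 6 * Z.card) * (n + k) := by
    intro g o hS Z' hZ' h1 h2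
    refine hz.trans (le_trans (FF.frame_card l' h hP hl' hm' g o hS N hN Z' h1 h2 ?_) ?_)
    · intro B h3 h4
      exact FF.box_card B N hN Z' h3 h4
    · have h5 := Finset.card_le_card hZ'
      exact Nat.mul_le_mul (by omega) (by omega)
  rcases hT with ⟨g, o, hS, hF | ⟨hV, f, c, Λ, hc, hΛ, hf, hv⟩⟩ | ⟨C, hC⟩
  · exact main g o hS Z (Finset.Subset.refl _) (not_pfl hF 1 (Or.inl rfl))
      (not_pfl hF (-1) (Or.inr rfl))
  · have hV' : ∀ p ∈ poly h, p ≠ o → g.ev p < 0 := fun p hp hpo => neg_pos.1 (hV p hp hpo)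
    have hv' : ∀ i j, i ≠ j → ∀ p ∈ poly h, (h i).ev p = 0 → (h j).ev p = 0 → p ≠ o →
        1 / IZ.yv g p = f (IZ.uv g o p / IZ.yv g p) := fun i j hij p hp h1 h2 hpo =>
      hv i j hij p ⟨⟨h1, hp⟩, ⟨h2, hp⟩⟩ hpo
    have hN4 : (4 : ℝ) ≤ (N : ℝ) := by
      have : (32 : ℝ) ≤ (N : ℝ) := by exact_mod_cast hN
      linarith
    have hq := fun ε hε => FF.q_main h hP g o hS.1 hS.2.1 hV' f hv' c Λ hc hf N hN4 hΛ ε hε ∅
    exact main g o hS ∅ (Finset.empty_subset _) (hq 1 (Or.inl rfl)) (hq (-1) (Or.inr rfl))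
  · let D : CZ.Con :=
      { f1 := ⟨C.f1.a, C.f1.b, C.f1.c⟩
        f2 := ⟨C.f2.a, C.f2.b, C.f2.c⟩
        f3 := ⟨C.f3.a, C.f3.b, C.f3.c⟩
        det := C.indep }
    have hD : FF.Insc D h ∨ FF.Circ D h := by
      rcases hC with hC | hC
      · left
        intro i j hij p hp h1 h2
        exact hC i j hij ⟨⟨h1, hp⟩, ⟨h2, hp⟩⟩
      · right
        exact ⟨hC.1, fun j => hC.2 j⟩
    exact (hz.trans (FF.conic_card l' h hP hl' hm' D hD)).trans
      (Nat.mul_le_mul (by omega) (by omega))

end Pool.Agent.Results.MP_e64a38_co.PolygonZone
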